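import Pool.Agent.W412.TI.Spec

set_option autoImplicit false

namespace Pool.Agent.W63.TI

open Set Metric Pool.Agent.W412.TI Filter Topology

theorem err_nonneg (F : C(unitInterval, unitInterval)) (t : ℝ) : 0 ≤ err F t := dist_nonneg

theorem amp_ge (F : C(unitInterval, unitInterval)) (t : ℝ) : 5 * |t| ≤ amp F t := by
  unfold amp; linarith [err_nonneg F t]

theorem continuous_amp (h2 : S_AVG) :
    Continuous fun q : C(unitInterval, unitInterval) × ℝ => amp q.1 q.2 := by
  unfold amp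
  have := h2.2.2.2.1
  fun_prop

theorem exists_tau (h2 : S_AVG) (ε : C(unitInterval, unitInterval) → ℝ) (hε : Continuous ε)
    (hp : ∀ f, 0 < ε f) : ∃ τ : C(unitInterval, unitInterval) → ℝ, Continuous τ ∧
    (∀ f, 0 < τ f ∧ τ f ≤ 1) ∧ (∀ f, 2 * amp f (τ f) < ε f) := by
  have hamp := continuous_amp h2
  set A : Set (C(unitInterval, unitInterval) × ℝ) := {q | min (ε q.1) 1 ≤ 2 * amp q.1 q.2} with hA
  have hcl : IsClosed A := by
    apply isClosed_le
    · exact (hε.comp continuous_fst).min continuous_const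
    · exact continuous_const.mul hamp
  have hne : A.Nonempty := by
    refine ⟨(ContinuousMap.id _, 1), ?_⟩
    rw [hA, mem_ofPred_eq]
    have := amp_ge (ContinuousMap.id unitInterval) 1
    rw [abs_one] at this
    exact (min_le_right _ _).trans (by linarith)
  have hnot : ∀ f, (f, (0 : ℝ)) ∉ A := by
    intro f hf
    rw [hA, mem_ofPred_eq] at hf
    have h0 : amp f 0 = 0 := by
      unfold amp
      rw [h2.2.2.2.2.2 f, abs_zero]; norm_num
    simp only [h0, mul_zero] at hf
    exact absurd (lt_min (hp f) one_pos) (not_lt.2 hf)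
  have hpos : ∀ f, 0 < infDist (f, (0 : ℝ)) A := by
    intro f
    exact (hcl.notMem_iff_infDist_pos hne).1 (hnot f)
  refine ⟨fun f => min 1 (infDist (f, (0 : ℝ)) A) / 2, ?_, ?_, ?_⟩
  · have : Continuous fun f : C(unitInterval, unitInterval) => infDist (f, (0 : ℝ)) A :=
      (continuous_infDist_pt A).comp (by fun_prop)
    exact (continuous_const.min this).div_const _
  · intro f
    have := hpos f
    refine ⟨by positivity, ?_⟩
    have := min_le_left 1 (infDist (f, (0 : ℝ)) A)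
    linarith
  · intro f
    have h0 := hpos f
    set t := min 1 (infDist (f, (0 : ℝ)) A) / 2 with ht
    have htp : 0 < t := by positivity
    have hlt : t < infDist (f, (0 : ℝ)) A := by
      have := min_le_right 1 (infDist (f, (0 : ℝ)) A)
      linarith
    have hnA : (f, t) ∉ A := by
      intro h
      have h3 := infDist_le_dist_of_mem (x := (f, (0 : ℝ))) h
      have h4 : dist (f, (0 : ℝ)) (f, t) = t := by
        rw [Prod.dist_eq]
        simp [Real.dist_eq, abs_of_pos htp, htp.le]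
      linarith
    rw [hA, mem_ofPred_eq, not_le] at hnA
    exact hnA.trans_le (min_le_left _ _)

theorem key (h1 : S_FOLD) (h2 : S_AVG)
    (g : ℝ → C(unitInterval, unitInterval) × ℝ → C(unitInterval, unitInterval)) (hg : IsG g)
    (g₀ f : C(unitInterval, unitInterval)) (c t b δ : ℝ) (hc : 16 ≤ c) (ht : 0 < t) (ht1 : t ≤ 1)
    (hb : 0 < b) (hb1 : b ≤ 1 / 4) (hδ : 1 / c < δ)
    (hu : ∀ x y : unitInterval, dist x y < δ → dist (g₀ x) (g₀ y) < b / 8)
    (hd : dist (g c (f, t)) g₀ < b / 8) : amp f t < b := by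
  have hc0 : 0 < c := by linarith
  have ha := amp_ge f t
  rw [abs_of_pos ht] at ha
  have hx1 : t ^ 2 / c ∈ Icc (0 : ℝ) 1 := by
    refine ⟨by positivity, ?_⟩
    rw [div_le_one hc0]
    nlinarith
  set x1 : unitInterval := ⟨t ^ 2 / c, hx1⟩ with hx1d
  have e0 : saw c t ((0 : unitInterval) : ℝ) = 0 := by
    unfold saw
    have := h1.2.2.1 0 0 (by norm_num) (by norm_num)
    simp only [Set.Icc.coe_zero, mul_zero, zero_div]
    rw [this]; norm_num
  have e1 : saw c t (x1 : ℝ) = 1 := by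
    unfold saw
    have := h1.2.2.1 0 1 (by norm_num) (by norm_num)
    have h3 : c * (x1 : ℝ) / t ^ 2 = 1 := by
      rw [hx1d]; simp only
      field_simp
    rw [h3, this]; norm_num
  have v0 : ((g c (f, t) 0 : unitInterval) : ℝ) = lo f t ((0 : unitInterval) : ℝ) := by
    rw [hg.1]
    unfold gR
    simp only [e0]; ring
  have v1 : ((g c (f, t) x1 : unitInterval) : ℝ) = hi f t (x1 : ℝ) := by
    rw [hg.1]
    unfold gR
    simp only [e1]; ring
  have hL : |avg f t (x1 : ℝ) - avg f t ((0 : unitInterval) : ℝ)| ≤ t / 16 := by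
    refine (h2.2.1 f t _ _ ht).trans ?_
    simp only [Set.Icc.coe_zero, sub_zero]
    rw [hx1d]; simp only
    rw [abs_of_nonneg hx1.1]
    have : t ^ 2 / c / t = t / c := by field_simp
    rw [this]
    exact div_le_div_of_nonneg_left ht.le (by norm_num) hc
  have u0 := h2.1 f t ((0 : unitInterval) : ℝ)
  have u1 := h2.1 f t (x1 : ℝ)
  have hx : dist (0 : unitInterval) x1 < δ := by
    rw [Subtype.dist_eq, Real.dist_eq, Set.Icc.coe_zero, zero_sub, abs_neg]
    rw [hx1d]; simp only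
    rw [abs_of_nonneg hx1.1]
    refine lt_of_le_of_lt ?_ hδ
    exact div_le_div_of_nonneg_right (by nlinarith) hc0.le
  have d1 := hu 0 x1 hx
  have d2 : dist (g c (f, t) 0) (g₀ 0) < b / 8 :=
    (ContinuousMap.dist_apply_le_dist (0 : unitInterval)).trans_lt hd
  have d3 : dist (g c (f, t) x1) (g₀ x1) < b / 8 :=
    (ContinuousMap.dist_apply_le_dist x1).trans_lt hd
  rw [Subtype.dist_eq, Real.dist_eq] at d1 d2 d3
  rw [v0] at d2
  rw [v1] at d3
  have a1 := abs_lt.1 d1
  have a2 := abs_lt.1 d2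
  have a3 := abs_lt.1 d3
  have a4 := abs_le.1 hL
  unfold lo at a2
  unfold hi at a3
  set u := avg f t ((0 : unitInterval) : ℝ)
  set v := avg f t (x1 : ℝ)
  set a := amp f t
  have ap : 0 < a := by linarith
  rcases le_total (1 : ℝ) (v + a) with q1 | q1 <;> rcases le_total (0 : ℝ) (u - a) with q2 | q2
  · rw [min_eq_left q1] at a3
    rw [max_eq_right q2] at a2
    linarith [a1.1, a1.2, a2.1, a2.2, a3.1, a3.2, a4.1, a4.2]
  · rw [min_eq_left q1] at a3
    rw [max_eq_left q2] at a2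
    exfalso
    linarith [a1.1, a1.2, a2.1, a2.2, a3.1, a3.2, a4.1, a4.2]
  · rw [min_eq_right q1] at a3
    rw [max_eq_right q2] at a2
    linarith [a1.1, a1.2, a2.1, a2.2, a3.1, a3.2, a4.1, a4.2]
  · rw [min_eq_right q1] at a3
    rw [max_eq_left q2] at a2
    linarith [a1.1, a1.2, a2.1, a2.2, a3.1, a3.2, a4.1, a4.2]

theorem lfFacts (h1 : Pool.Agent.W412.TI.S_FOLD) (h2 : Pool.Agent.W412.TI.S_AVG) :
    Pool.Agent.W412.TI.S_LF := by
  intro g hg ε hε hp
  obtain ⟨τ, hτc, hτ1, hτ2⟩ := exists_tau h2 ε hε hp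
  refine ⟨τ, hτc, hτ1, hτ2, ?_⟩
  intro g₀
  have he := (hτ1 g₀).1
  obtain ⟨r, hr, hr1⟩ := Metric.continuous_iff.1 hτc g₀ (τ g₀ / 2) (by linarith)
  set b := min (r / 4) (min (τ g₀ / 2) (1 / 4)) with hb
  have hb0 : 0 < b := by positivity
  have hb1 : b ≤ r / 4 := min_le_left _ _
  have hb2 : b ≤ τ g₀ / 2 := (min_le_right _ _).trans (min_le_left _ _)
  have hb3 : b ≤ 1 / 4 := (min_le_right _ _).trans (min_le_right _ _)
  obtain ⟨δ, hδ, hδ1⟩ := Metric.uniformContinuous_iff.1
    (CompactSpace.uniformContinuous_of_continuous g₀.continuous) (b / 8) (by linarith)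
  obtain ⟨N, hN⟩ := exists_nat_one_div_lt hδ
  refine ⟨ball g₀ (b / 8), ball_mem_nhds _ (by linarith), ?_⟩
  refine (Set.finite_lt_nat N).subset ?_
  intro n hn
  rw [mem_ofPred_eq] at hn ⊢
  by_contra hnN
  rw [not_lt] at hnN
  obtain ⟨ψ, ⟨f, hf⟩, hψ⟩ := hn
  simp only at hf
  rw [← hf, mem_ball] at hψ
  have hnN' : (N : ℝ) ≤ n := by exact_mod_cast hnN
  have hn0 : (0 : ℝ) ≤ n := by positivity
  have hN0 : (0 : ℝ) ≤ N := by positivity
  have hlt : 1 / (16 + (n : ℝ)) < δ := by
    refine lt_of_le_of_lt ?_ hN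
    exact one_div_le_one_div_of_le (by linarith) (by linarith)
  have hamp := key h1 h2 g hg g₀ f (16 + n) (τ f) b δ (by linarith) (hτ1 f).1 (hτ1 f).2 hb0 hb3
    hlt (fun x y h => hδ1 h) hψ
  have hdf := hg.2.2.2 (16 + n) f (τ f)
  have hd : dist f g₀ < r := by
    have h3 := dist_triangle f (g (16 + n) (f, τ f)) g₀
    rw [dist_comm f (g (16 + n) (f, τ f))] at h3
    linarith
  have h4 := hr1 f hd
  rw [Real.dist_eq, abs_lt] at h4
  have h5 := amp_ge f (τ f)
  rw [abs_of_pos (hτ1 f).1] at h5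
  linarith [h4.1]

end Pool.Agent.W63.TI
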